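import Pool.Agent.Helper55.CF.Goals

/-! # Packet SER of MP_b612a6_ag: exponential series with polynomial weights -/

set_option autoImplicit false

open MeasureTheory Complex

noncomputable section

namespace Pool.Agent.Helper27.CFSer

open CF55

theorem main_aux (n : ℕ) : ∀ r : Polynomial ℂ, r.natDegree ≤ n → ∃ rh : Polynomial ℂ, ∀ t : ℂ,
    HasSum (fun k : ℕ => (-t) ^ k / (k.factorial : ℂ) * r.eval (k : ℂ))
      (rh.eval t * cexp (-t)) := by
  induction n with
  | zero =>
    intro r hr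
    obtain ⟨c, hc⟩ := Polynomial.natDegree_eq_zero.1 (Nat.le_zero.1 hr)
    refine ⟨Polynomial.C c, fun t => ?_⟩
    subst hc
    simp only [Polynomial.eval_C]
    rw [mul_comm c]
    have h1 := NormedSpace.expSeries_div_hasSum_exp (-t)
    rw [← Complex.exp_eq_exp_ℂ] at h1
    exact h1.mul_right c
  | succ n ih =>
    intro r hr
    obtain ⟨r2, h2⟩ := ih (r.divX.comp (Polynomial.X + 1)) (by
      refine le_trans Polynomial.natDegree_comp_le ?_
      have h3 : (Polynomial.X + 1 : Polynomial ℂ).natDegree = 1 := by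
        have := Polynomial.natDegree_X_add_C (1 : ℂ)
        simpa using this
      rw [h3, mul_one, Polynomial.natDegree_divX_eq_natDegree_tsub_one]
      omega)
    refine ⟨Polynomial.C (r.coeff 0) - Polynomial.X * r2, fun t => ?_⟩
    have h4 := (NormedSpace.expSeries_div_hasSum_exp (-t)).mul_right (r.coeff 0)
    rw [← Complex.exp_eq_exp_ℂ] at h4
    have h5 := (h2 t).mul_left (-t)
    have h6 : HasSum (fun k : ℕ => (-t) ^ k / (k.factorial : ℂ) *
        ((k : ℂ) * r.divX.eval (k : ℂ))) (-t * (r2.eval t * cexp (-t))) := by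
      rw [← hasSum_nat_add_iff' 1]
      simp only [Finset.range_one, Finset.sum_singleton, Nat.cast_zero, zero_mul, mul_zero,
        sub_zero]
      have e : (fun k : ℕ => (-t) ^ (k + 1) / ((k + 1).factorial : ℂ) *
          (((k + 1 : ℕ) : ℂ) * r.divX.eval ((k + 1 : ℕ) : ℂ))) =
          fun k : ℕ => -t * ((-t) ^ k / (k.factorial : ℂ) *
            (r.divX.comp (Polynomial.X + 1)).eval (k : ℂ)) := by
        funext k
        simp only [Polynomial.eval_comp, Polynomial.eval_add, Polynomial.eval_X,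
          Polynomial.eval_one, Nat.cast_add, Nat.cast_one, Nat.factorial_succ, Nat.cast_mul]
        have h1 : (k.factorial : ℂ) ≠ 0 := by exact_mod_cast Nat.factorial_ne_zero k
        have h2 : (k : ℂ) + 1 ≠ 0 := by exact_mod_cast Nat.succ_ne_zero k
        rw [pow_succ]
        field_simp
      rw [e]
      exact h5
    have h7 := h4.add h6
    have h8 : (Polynomial.C (r.coeff 0) - Polynomial.X * r2).eval t * cexp (-t) =
        cexp (-t) * r.coeff 0 + -t * (r2.eval t * cexp (-t)) := by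
      simp only [Polynomial.eval_sub, Polynomial.eval_C, Polynomial.eval_mul, Polynomial.eval_X]
      ring
    rw [h8]
    have e : (fun k : ℕ => (-t) ^ k / (k.factorial : ℂ) * r.eval (k : ℂ)) =
        fun k : ℕ => (-t) ^ k / (k.factorial : ℂ) * r.coeff 0 +
          (-t) ^ k / (k.factorial : ℂ) * ((k : ℂ) * r.divX.eval (k : ℂ)) := by
      funext k
      conv_lhs => rw [← Polynomial.divX_mul_X_add r]
      simp only [Polynomial.eval_add, Polynomial.eval_mul, Polynomial.eval_X, Polynomial.eval_C]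
      ring
    rw [e]
    exact h7

theorem main (r : Polynomial ℂ) : ∃ rh : Polynomial ℂ, ∀ t : ℂ,
    HasSum (fun k : ℕ => (-t) ^ k / (k.factorial : ℂ) * r.eval (k : ℂ))
      (rh.eval t * cexp (-t)) := main_aux r.natDegree r le_rfl

theorem cont_eval (p : MvPolynomial (Fin 5) ℂ) : Continuous (fun x : X5 => MvPolynomial.eval x p) :=
  MvPolynomial.continuous_eval p

theorem bound (p : MvPolynomial (Fin 5) ℂ) (ψ : X5 → ℂ) (h1 : Continuous ψ)
    (h2 : HasCompactSupport ψ) : ∃ B : ℝ, 0 ≤ B ∧ ∀ (k : ℕ) (x : X5),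
      ‖((‖MvPolynomial.eval x p‖ ^ 2 : ℝ) : ℂ) ^ k * ψ x‖ ≤ B ^ k * ‖ψ x‖ := by
  obtain ⟨B, hB⟩ := h2.exists_bound_of_continuousOn
    (f := fun x : X5 => ‖MvPolynomial.eval x p‖ ^ 2) (by
      exact ((cont_eval p).norm.pow 2).continuousOn)
  refine ⟨max B 0, le_max_right _ _, fun k x => ?_⟩
  by_cases hx : x ∈ tsupport ψ
  · rw [norm_mul, norm_pow]
    refine mul_le_mul_of_nonneg_right ?_ (norm_nonneg _)
    refine pow_le_pow_left₀ (norm_nonneg _) ?_ k
    rw [Complex.norm_real]
    exact (hB x hx).trans (le_max_left _ _)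
  · have h3 : ψ x = 0 := image_eq_zero_of_notMem_tsupport hx
    rw [h3]
    simp

theorem integ (p : MvPolynomial (Fin 5) ℂ) (ψ : X5 → ℂ) (h1 : Continuous ψ)
    (h2 : HasCompactSupport ψ) (k : ℕ) :
    Integrable (fun x : X5 => ((‖MvPolynomial.eval x p‖ ^ 2 : ℝ) : ℂ) ^ k * ψ x) := by
  refine Continuous.integrable_of_hasCompactSupport ?_ ?_
  · refine Continuous.mul ?_ h1
    refine Continuous.pow ?_ k
    exact Complex.continuous_ofReal.comp ((cont_eval p).norm.pow 2)
  · exact h2.mul_left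

theorem stmtSER : G_SER := by
  intro r
  obtain ⟨rh, hr⟩ := main r
  refine ⟨rh, ?_, ?_⟩
  · intro t
    have h := (hr (t : ℂ)).tsum_eq
    rw [← h]
    unfold Ser
    refine tsum_congr fun k => ?_
    have e : (((-1 : ℝ) : ℝ) : ℂ) ^ k * (t : ℂ) ^ k = (-(t : ℂ)) ^ k := by
      rw [← mul_pow]
      congr 1
      push_cast
      ring
    rw [← e]
    ring
  · intro p ψ h1 h2
    obtain ⟨B, hB0, hB⟩ := bound p ψ h1 h2
    have hψ : Integrable (fun x => ‖ψ x‖) := (h1.integrable_of_hasCompactSupport h2).norm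
    refine ⟨⟨∫ x, ‖ψ x‖, B, fun k => ?_⟩, ?_⟩
    · unfold mu
      refine (norm_integral_le_integral_norm _).trans ?_
      rw [mul_comm, ← integral_const_mul]
      exact integral_mono (integ p ψ h1 h2 k).norm (hψ.const_mul _) (hB k)
    · intro R
      set F : ℕ → X5 → ℂ := fun k x => ((-R : ℝ) : ℂ) ^ k / (k.factorial : ℂ) *
        (r.eval (k : ℂ) * (((‖MvPolynomial.eval x p‖ ^ 2 : ℝ) : ℂ) ^ k * ψ x)) with hF
      have hint : ∀ k, Integrable (F k) := fun k =>
        ((integ p ψ h1 h2 k).const_mul _).const_mul _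
      have hsum : Summable fun k => ∫ x, ‖F k x‖ := by
        have h3 : Summable fun k : ℕ => ‖(-((|R| * B : ℝ) : ℂ)) ^ k / (k.factorial : ℂ) *
            r.eval (k : ℂ)‖ := (hr ((|R| * B : ℝ) : ℂ)).summable.norm
        refine Summable.of_nonneg_of_le (fun k => integral_nonneg fun x => norm_nonneg _) ?_
          (h3.mul_right (∫ x, ‖ψ x‖))
        intro k
        rw [← integral_const_mul]
        refine integral_mono (hint k).norm (hψ.const_mul _) fun x => ?_
        simp only [hF]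
        have h4 := hB k x
        have e1 : ‖((-R : ℝ) : ℂ)‖ = |R| := by
          rw [Complex.norm_real, Real.norm_eq_abs, abs_neg]
        have e2 : ‖((|R| * B : ℝ) : ℂ)‖ = |R| * B := by
          rw [Complex.norm_real, Real.norm_eq_abs, abs_of_nonneg (mul_nonneg (abs_nonneg _) hB0)]
        have e6 : ‖((-R : ℝ) : ℂ) ^ k / (k.factorial : ℂ) * (r.eval (k : ℂ) *
            (((‖MvPolynomial.eval x p‖ ^ 2 : ℝ) : ℂ) ^ k * ψ x))‖ =
            |R| ^ k / ‖(k.factorial : ℂ)‖ * (‖r.eval (k : ℂ)‖ *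
              ‖((‖MvPolynomial.eval x p‖ ^ 2 : ℝ) : ℂ) ^ k * ψ x‖) := by
          rw [norm_mul, norm_div, norm_pow, e1, norm_mul (r.eval (k : ℂ))]
        have e7 : ‖(-((|R| * B : ℝ) : ℂ)) ^ k / (k.factorial : ℂ) * r.eval (k : ℂ)‖ =
            (|R| * B) ^ k / ‖(k.factorial : ℂ)‖ * ‖r.eval (k : ℂ)‖ := by
          rw [norm_mul, norm_div, norm_pow, norm_neg, e2]
        rw [e6, e7]
        calc |R| ^ k / ‖(k.factorial : ℂ)‖ * (‖r.eval (k : ℂ)‖ *
              ‖((‖MvPolynomial.eval x p‖ ^ 2 : ℝ) : ℂ) ^ k * ψ x‖)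
            ≤ |R| ^ k / ‖(k.factorial : ℂ)‖ * (‖r.eval (k : ℂ)‖ * (B ^ k * ‖ψ x‖)) := by
              gcongr
          _ = (|R| * B) ^ k / ‖(k.factorial : ℂ)‖ * ‖r.eval (k : ℂ)‖ * ‖ψ x‖ := by
              rw [mul_pow]
              ring
      have key := hasSum_integral_of_summable_integral_norm hint hsum
      have e3 : ∀ k, ∫ x, F k x = ((-R : ℝ) : ℂ) ^ k / (k.factorial : ℂ) *
          (r.eval (k : ℂ) * mu p ψ k) := by
        intro k
        simp only [hF]
        rw [integral_const_mul, integral_const_mul]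
        rfl
      simp_rw [e3] at key
      have e4 : ∀ x, ∑' k, F k x = rh.eval ((R * ‖MvPolynomial.eval x p‖ ^ 2 : ℝ) : ℂ) *
          cexp (-((R * ‖MvPolynomial.eval x p‖ ^ 2 : ℝ) : ℂ)) * ψ x := by
        intro x
        have h5 := ((hr ((R * ‖MvPolynomial.eval x p‖ ^ 2 : ℝ) : ℂ)).mul_right (ψ x)).tsum_eq
        rw [← h5]
        refine tsum_congr fun k => ?_
        simp only [hF]
        have e5 : (-((R * ‖MvPolynomial.eval x p‖ ^ 2 : ℝ) : ℂ)) ^ k =
            ((-R : ℝ) : ℂ) ^ k * ((‖MvPolynomial.eval x p‖ ^ 2 : ℝ) : ℂ) ^ k := by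
          rw [← mul_pow]
          congr 1
          push_cast
          ring
        rw [e5]
        ring
      simp_rw [e4] at key
      exact key.tsum_eq

end Pool.Agent.Helper27.CFSer
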