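import Pool.Agent.Helper45.CF.GoalsA
import Pool.Agent.Helper36.CR.TNEG

/-!
# Packet CF-STAB (project CAR FIELDS, MP_d97caa_an): stability for the compact operators
-/

open scoped ComplexOrder ZeroAtInfty Topology ComplexConjugate
open TopologicalSpace Filter

namespace Pool.Agent.Helper27.CF

open Pool.Agent.Helper34.CAR Pool.Agent.Helper39.CR Pool.Agent.Helper45.CF
open Pool.Agent.Helper36.CR

noncomputable section

/-- A system of matrix units gives a homomorphism from the matrix algebra. -/
def big {ι W K : Type} [Fintype ι] [DecidableEq ι] [CStarAlgebra W] [NonUnitalCStarAlgebra K]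
    (e : ι → ι → W →ₗ[ℂ] K) (hm : ∀ i j k a b, e i j a * e j k b = e i k (a * b))
    (h0 : ∀ i j k l a b, j ≠ k → e i j a * e k l b = 0)
    (hs : ∀ i j a, star (e i j a) = e j i (star a)) : Mt ι W →⋆ₙₐ[ℂ] K where
  toFun a := ∑ i, ∑ j, e i j (a i j)
  map_smul' c a := by
    simp only [Mt.smul_apply, map_smul, Finset.smul_sum, MonoidHom.id_apply]
  map_zero' := by
    simp only [Mt.zero_apply, map_zero, Finset.sum_const_zero]
  map_add' a b := by
    simp only [Mt.add_apply, map_add, Finset.sum_add_distrib]
  map_mul' a b := by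
    have key : ∀ i j, e i j (a i j) * (∑ k, ∑ l, e k l (b k l)) =
        ∑ l, e i l (a i j * b j l) := by
      intro i j
      rw [Finset.mul_sum, Finset.sum_eq_single j]
      · rw [Finset.mul_sum]
        exact Finset.sum_congr rfl fun l _ => hm i j l _ _
      · intro k _ hk
        rw [Finset.mul_sum]
        exact Finset.sum_eq_zero fun l _ => h0 i j k l _ _ hk.symm
      · intro h
        exact absurd (Finset.mem_univ j) h
    rw [Finset.sum_mul]
    refine Finset.sum_congr rfl fun i _ => ?_
    rw [Finset.sum_mul]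
    simp only [key, Mt.mul_apply, map_sum]
    exact Finset.sum_comm
  map_star' a := by
    simp only [star_sum, hs, Mt.star_apply]
    exact Finset.sum_comm

variable {ι W K : Type} [Fintype ι] [DecidableEq ι] [CStarAlgebra W] [NonUnitalCStarAlgebra K]
    (e : ι → ι → W →ₗ[ℂ] K) (hm : ∀ i j k a b, e i j a * e j k b = e i k (a * b))
    (h0 : ∀ i j k l a b, j ≠ k → e i j a * e k l b = 0)
    (hs : ∀ i j a, star (e i j a) = e j i (star a))

theorem big_apply (a : Mt ι W) : big e hm h0 hs a = ∑ i, ∑ j, e i j (a i j) := rfl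

theorem big_single (i j : ι) (w : W) : big e hm h0 hs (Mt.single i j w) = e i j w := by
  rw [big_apply, Finset.sum_eq_single i]
  · rw [Finset.sum_eq_single j]
    · rw [Mt.single_apply, if_pos ⟨rfl, rfl⟩]
    · intro l _ hl
      rw [Mt.single_apply, if_neg fun h => hl h.2, map_zero]
    · intro h
      exact absurd (Finset.mem_univ j) h
  · intro k _ hk
    refine Finset.sum_eq_zero fun l _ => ?_
    rw [Mt.single_apply, if_neg fun h => hk h.1, map_zero]
  · intro h
    exact absurd (Finset.mem_univ i) h

theorem big_inj (hi : ∀ i j a, e i j a = 0 → a = 0) : Function.Injective (big e hm h0 hs) := by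
  rw [injective_iff_map_eq_zero]
  intro a ha
  refine Mt.ext fun i j => ?_
  refine hi i j _ ?_
  have h1 : Mt.single i i (1 : W) * a * Mt.single j j (1 : W) = Mt.single i j (a i j) := by
    refine Mt.ext fun p q => ?_
    rw [Mt.mul_apply, Finset.sum_eq_single j]
    · rw [Mt.mul_apply, Finset.sum_eq_single i]
      · simp only [Mt.single_apply]
        by_cases hp : p = i <;> by_cases hq : q = j <;> simp [hp, hq]
      · intro k _ hk
        rw [Mt.single_apply, if_neg fun h => hk h.2, zero_mul]
      · intro h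
        exact absurd (Finset.mem_univ i) h
    · intro k _ hk
      rw [Mt.single_apply, if_neg fun h => hk h.1, mul_zero]
    · intro h
      exact absurd (Finset.mem_univ j) h
  rw [← big_single e hm h0 hs i j, ← h1, map_mul, map_mul, ha, mul_zero, zero_mul]

/-- Padding of matrices by zeros. -/
def padH (W : Type) [CStarAlgebra W] (n : ℕ) : Mt (Fin (n + 1)) W →⋆ₙₐ[ℂ] Mt (Fin (n + 2)) W :=
  big (fun i j => (mu i.castSucc j.castSucc : W →ₗ[ℂ] Mt (Fin (n + 2)) W))
    (fun i j k a b => munits.mul i.castSucc j.castSucc k.castSucc a b)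
    (fun i j k l a b h => munits.mul0 i.castSucc j.castSucc k.castSucc l.castSucc a b
      fun h' => h (Fin.castSucc_injective _ h'))
    (fun i j a => munits.star i.castSucc j.castSucc a)

theorem padH_single {W : Type} [CStarAlgebra W] (n : ℕ) (i j : Fin (n + 1)) (w : W) :
    padH W n (Mt.single i j w) = Mt.single i.castSucc j.castSucc w := by
  rw [padH, big_single]
  rfl

theorem stab : S_STAB := by
  intro T i W K _ _ _ _ e he h hh x
  let u : ∀ n : ℕ, Mt (Fin (n + 1)) W →⋆ₙₐ[ℂ] K := fun n =>
    big (fun i j : Fin (n + 1) => e i j) (fun i j k a b => he.mul i j k a b)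
      (fun i j k l a b h => he.mul0 i j k l a b fun h' => h (Fin.ext h'))
      (fun i j a => he.star i j a)
  have hu : ∀ (n : ℕ) (a : Mt (Fin (n + 1)) W),
      u n a = ∑ i : Fin (n + 1), ∑ j : Fin (n + 1), e i j (a i j) := fun n a => rfl
  have husingle : ∀ (n : ℕ) (i j : Fin (n + 1)) (w : W), u n (Mt.single i j w) = e i j w :=
    fun n i j w => big_single (fun i j : Fin (n + 1) => e i j) _ _ _ i j w
  have hinj : ∀ n, Function.Injective (u n) := fun n =>
    big_inj (fun i j : Fin (n + 1) => e i j) _ _ _ fun i j a => he.inj i j a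
  have hcomp : ∀ n b, u (n + 1) (padH W n b) = u n b := by
    intro n b
    have h1 : padH W n b =
        ∑ i : Fin (n + 1), ∑ j : Fin (n + 1),
          (Mt.single i.castSucc j.castSucc (b i j) : Mt (Fin (n + 2)) W) := rfl
    rw [h1, map_sum, hu n b]
    refine Finset.sum_congr rfl fun i _ => ?_
    rw [map_sum]
    refine Finset.sum_congr rfl fun j _ => ?_
    rw [husingle]
    rfl
  have hd : Dense (⋃ k, Set.range (u k)) := by
    refine he.dense.mono ?_
    rintro y ⟨n, f, rfl⟩
    refine Set.mem_iUnion.2 ?_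
    rcases n with _ | n
    · exact ⟨0, 0, by rw [map_zero]; simp⟩
    · refine ⟨n, Mt.of fun i j => f i j, ?_⟩
      rw [hu, Finset.sum_range]
      refine Finset.sum_congr rfl fun i _ => ?_
      rw [Finset.sum_range]
      rfl
  let c : ∀ n : ℕ, W →⋆ₙₐ[ℂ] Mt (Fin (n + 1)) W := fun n => cornH (0 : Fin (n + 1))
  have hc : ∀ n, Function.Bijective (T.map i (c n)) := fun n =>
    T.stable i W (Mt (Fin (n + 1)) W) (Fin (n + 1)) mu munits 0 (c n) fun _ => rfl
  have hjc : ∀ n, (padH W n).comp (c n) = c (n + 1) := by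
    intro n
    refine DFunLike.ext _ _ fun w => ?_
    exact padH_single n 0 0 w
  choose xn hxn using fun n => (hc n).2 x
  have hx : ∀ k, T.map i (padH W k) (xn (k + 1)) = xn k := by
    intro k
    refine (hc k).1 ?_
    rw [← T.map_comp, hjc, hxn, hxn]
  obtain ⟨y, hy⟩ := (T.milnor i K (fun n => Mt (Fin (n + 1)) W) (padH W) u hinj hcomp hd).1 xn hx
  refine ⟨y, ?_⟩
  have hh' : h = (u 0).comp (c 0) := by
    refine DFunLike.ext _ _ fun w => ?_
    rw [hh]
    exact (husingle 0 0 0 w).symm
  rw [hh', T.map_comp, hy 0, hxn]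

end

end Pool.Agent.Helper27.CF
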